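import Mathlib
import Pool.Agent.H731R2.Jordan

/-!
# Representations with control of the total mass
-/

set_option autoImplicit false
set_option linter.unusedSectionVars false

open MeasureTheory Filter Topology Set
open scoped InnerProductSpace FourierTransform SchwartzMap
open Pool.Agent.H731R2

namespace Pool.Agent.Y99.JD

/-- The conjugate sign of a complex number (zero at zero). -/
noncomputable def csg (z : ℂ) : ℂ := (starRingEnd ℂ) z / (‖z‖ : ℂ)

theorem norm_csg_le (z : ℂ) : ‖csg z‖ ≤ 1 := by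
  unfold csg
  rw [norm_div, RCLike.norm_conj, Complex.norm_real, norm_norm]
  exact div_self_le_one _

theorem csg_mul (z : ℂ) : csg z * z = (‖z‖ : ℂ) := by
  unfold csg
  by_cases h : z = 0
  · simp [h]
  · have hn : (‖z‖ : ℂ) ≠ 0 := by exact_mod_cast norm_ne_zero_iff.2 h
    rw [div_mul_eq_mul_div, Complex.conj_mul', sq]
    field_simp

theorem measurable_csg : Measurable csg := by
  unfold csg
  exact (Complex.continuous_conj.measurable).div (Complex.measurable_ofReal.comp measurable_norm)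

section L1

variable {X : Type*} [TopologicalSpace X] [CompactSpace X] [T2Space X] [MeasurableSpace X]
  [BorelSpace X]

/-- Radial truncation of a continuous function to the unit disc. -/
noncomputable def clamp (h : C(X, ℂ)) : C(X, ℂ) :=
  ⟨fun x => (((max 1 ‖h x‖)⁻¹ : ℝ) : ℂ) * h x, by
    have h0 : ∀ x, max 1 ‖h x‖ ≠ 0 := fun x => (lt_max_of_lt_left one_pos).ne'
    have h1 : Continuous fun x => (max 1 ‖h x‖)⁻¹ :=
      (continuous_const.max h.continuous.norm).inv₀ h0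
    exact (Complex.continuous_ofReal.comp h1).mul h.continuous⟩

theorem clamp_apply (h : C(X, ℂ)) (x : X) :
    clamp h x = (((max 1 ‖h x‖)⁻¹ : ℝ) : ℂ) * h x := rfl

theorem norm_clamp_le (h : C(X, ℂ)) (x : X) : ‖clamp h x‖ ≤ 1 := by
  rw [clamp_apply, norm_mul, Complex.norm_real, Real.norm_of_nonneg (by positivity)]
  rw [inv_mul_le_iff₀ (by positivity), mul_one]
  exact le_max_right _ _

theorem clamp_sub_le (h : C(X, ℂ)) (x : X) (z : ℂ) (hz : ‖z‖ ≤ 1) :
    ‖z - clamp h x‖ ≤ 2 * ‖z - h x‖ := by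
  rcases le_total ‖h x‖ 1 with h1 | h1
  · rw [clamp_apply, max_eq_left h1]
    simp only [inv_one, Complex.ofReal_one, one_mul]
    linarith [norm_nonneg (z - h x)]
  · have h2 : ‖h x - clamp h x‖ = ‖h x‖ - 1 := by
      have h3 : h x - clamp h x = ((1 - ‖h x‖⁻¹ : ℝ) : ℂ) * h x := by
        rw [clamp_apply, max_eq_right h1]
        push_cast
        ring
      have h4 : 0 < ‖h x‖ := by linarith
      have h5 : ‖h x‖⁻¹ ≤ 1 := inv_le_one_of_one_le₀ h1
      rw [h3, norm_mul, Complex.norm_real, Real.norm_of_nonneg (by linarith), sub_mul, one_mul,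
        inv_mul_cancel₀ h4.ne']
    have h3 : ‖h x‖ - ‖z‖ ≤ ‖z - h x‖ := by
      rw [norm_sub_rev]
      exact norm_sub_norm_le _ _
    calc ‖z - clamp h x‖ = ‖(z - h x) + (h x - clamp h x)‖ := by congr 1; ring
      _ ≤ ‖z - h x‖ + ‖h x - clamp h x‖ := norm_add_le _ _
      _ ≤ 2 * ‖z - h x‖ := by rw [h2]; linarith

theorem inner_star_eq {μ : Measure X} (g u : Lp ℂ 2 μ) :
    ⟪star g, u⟫_ℂ = ∫ x, g x * u x ∂μ := by
  rw [MeasureTheory.L2.inner_def]
  apply integral_congr_ae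
  filter_upwards [Lp.coeFn_star g] with x hx
  rw [hx]
  simp [mul_comm]

theorem inner_star_add {μ : Measure X} (g k u : Lp ℂ 2 μ) :
    ⟪star (g + k), u⟫_ℂ = ⟪star g, u⟫_ℂ + ⟪star k, u⟫_ℂ := by
  rw [inner_star_eq, inner_star_eq, inner_star_eq, ← integral_add]
  · apply integral_congr_ae
    filter_upwards [Lp.coeFn_add g k] with x hx
    rw [hx, Pi.add_apply, add_mul]
  · exact (Lp.memLp g).integrable_mul (Lp.memLp u)
  · exact (Lp.memLp k).integrable_mul (Lp.memLp u)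

theorem norm_star_le {μ : Measure X} (g : Lp ℂ 2 μ) : ‖star g‖ ≤ ‖g‖ := by
  apply Lp.norm_le_norm_of_ae_le
  filter_upwards [Lp.coeFn_star g] with x hx
  rw [hx, Pi.star_apply, norm_star]

/-- The density of a functional has total mass at most the norm of the functional. -/
theorem l1_bound {μ : Measure X} [IsFiniteMeasure μ] [μ.Regular] (Φ : StrongDual ℂ C(X, ℂ))
    (u : Lp ℂ 2 μ) (hu : ∀ h : C(X, ℂ), Φ h = ∫ x, h x * u x ∂μ) : ∫ x, ‖u x‖ ∂μ ≤ ‖Φ‖ := by
  have hs : MemLp (fun x => csg (u x)) 2 μ :=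
    MemLp.of_bound (measurable_csg.comp (Lp.stronglyMeasurable u).measurable).aestronglyMeasurable 1
      (ae_of_all _ fun x => norm_csg_le _)
  set S : Lp ℂ 2 μ := hs.toLp _ with hS
  have hSae : (S : X → ℂ) =ᵐ[μ] fun x => csg (u x) := hs.coeFn_toLp
  let T : C(X, ℂ) →L[ℂ] Lp ℂ 2 μ := ContinuousMap.toLp (E := ℂ) 2 μ ℂ
  have hTae : ∀ h : C(X, ℂ), (T h : X → ℂ) =ᵐ[μ] h := fun h => ContinuousMap.coeFn_toLp μ h
  have hd : DenseRange T := ContinuousMap.toLp_denseRange ℂ μ ℂ (by norm_num)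
  have hSu : ⟪star S, u⟫_ℂ = ((∫ x, ‖u x‖ ∂μ : ℝ) : ℂ) := by
    rw [inner_star_eq, ← integral_complex_ofReal]
    apply integral_congr_ae
    filter_upwards [hSae] with x hx
    rw [hx, csg_mul]
  apply le_of_forall_pos_le_add
  intro ε hε
  obtain ⟨δ, hδ, hδu⟩ : ∃ δ : ℝ, 0 < δ ∧ 2 * δ * ‖u‖ ≤ ε := by
    refine ⟨ε / (2 * (‖u‖ + 1)), by positivity, ?_⟩
    have h1 : 0 ≤ ‖u‖ := norm_nonneg _
    have h2 : 2 * (ε / (2 * (‖u‖ + 1))) * ‖u‖ = ε * (‖u‖ / (‖u‖ + 1)) := by
      field_simp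
    rw [h2]
    refine mul_le_of_le_one_right hε.le ?_
    rw [div_le_one (by positivity)]
    linarith
  obtain ⟨h, hh⟩ := hd.exists_dist_lt S hδ
  rw [dist_eq_norm] at hh
  have h1 : ‖S - T (clamp h)‖ ≤ 2 * ‖S - T h‖ := by
    apply Lp.norm_le_mul_norm_of_ae_le_mul
    filter_upwards [Lp.coeFn_sub S (T (clamp h)), Lp.coeFn_sub S (T h), hTae (clamp h), hTae h,
      hSae] with x h1 h2 h3 h4 h5
    rw [h1, h2, Pi.sub_apply, Pi.sub_apply, h3, h4, h5]
    exact clamp_sub_le h x _ (norm_csg_le _)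
  have h2 : ⟪star S, u⟫_ℂ = ⟪star (S - T (clamp h)), u⟫_ℂ + Φ (clamp h) := by
    have h3 : Φ (clamp h) = ⟪star (T (clamp h)), u⟫_ℂ := by
      rw [hu, inner_star_eq]
      apply integral_congr_ae
      filter_upwards [hTae (clamp h)] with x hx
      rw [hx]
    rw [h3, ← inner_star_add, sub_add_cancel]
  have h3 : ‖((∫ x, ‖u x‖ ∂μ : ℝ) : ℂ)‖ ≤ 2 * δ * ‖u‖ + ‖Φ‖ := by
    rw [← hSu, h2]
    refine (norm_add_le _ _).trans (add_le_add ?_ ?_)
    · refine (norm_inner_le_norm _ _).trans ?_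
      exact mul_le_mul_of_nonneg_right ((norm_star_le _).trans (h1.trans (by linarith)))
        (norm_nonneg _)
    · refine (Φ.le_opNorm _).trans ?_
      refine mul_le_of_le_one_right (norm_nonneg _) ?_
      rw [ContinuousMap.norm_le _ zero_le_one]
      exact norm_clamp_le h
  rw [Complex.norm_real, Real.norm_of_nonneg (integral_nonneg fun _ => norm_nonneg _)] at h3
  linarith

end L1

variable {A : EReal}

/-- Representation of an element of `R_A` on the compactification, with control of the mass. -/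
theorem exists_bohr_rep_norm {f : Dom A → ℂ} {C : ℝ} (hC : 0 ≤ C)
    (hfC : ∀ c : Dom A →₀ ℂ, ‖pairing f c‖ ≤ C * ⨆ t : ℝ, ‖apPoly c t‖) :
    ∃ (μ : Measure Bohr) (_ : IsFiniteMeasure μ) (u : Lp ℂ 2 μ),
      ∫ x, ‖u x‖ ∂μ ≤ C ∧ ∀ l : Dom A, f l = ∫ x, chr l x * u x ∂μ := by
  let l : (Dom A →₀ ℂ) →ₗ[ℂ] ℂ :=
    { toFun := pairing f
      map_add' := pairing_add f
      map_smul' := by
        intro r c
        rw [pairing_smul]
        rfl }
  obtain ⟨Ψ, hΨC, hΨ⟩ := exists_functional (bohrPoly A) l C hC (by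
    intro c
    refine (hfC c).trans (mul_le_mul_of_nonneg_left ?_ hC)
    refine ciSup_le fun t => ?_
    rw [← bohrPoly_pt]
    exact (bohrPoly A c).norm_coe_le_norm _)
  obtain ⟨μ, hμ, hreg, u, hu⟩ := exists_density Ψ
  refine ⟨μ, hμ, u, (l1_bound Ψ u hu).trans hΨC, fun y => ?_⟩
  have h1 : pairing f (Finsupp.single y 1) = f y := by
    unfold pairing
    rw [Finsupp.sum_single_index (by simp), one_mul]
  have h2 : bohrPoly A (Finsupp.single y 1) = chr y := by
    ext x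
    rw [bohrPoly_apply, Finsupp.sum_single_index (by simp), one_mul]
  have h3 := hΨ (Finsupp.single y 1)
  rw [h2, hu] at h3
  rw [h3]
  exact h1.symm

/-- A measurable element of `R_A` is almost everywhere equal to a Fourier transform, with control
of the mass. -/
theorem exists_rep_norm {f : Dom A → ℂ} {C : ℝ} (hC : 0 ≤ C)
    (hfC : ∀ c : Dom A →₀ ℂ, ‖pairing f c‖ ≤ C * ⨆ t : ℝ, ‖apPoly c t‖)
    (hm : AEMeasurable f (leb A)) :
    ∃ (ν : Measure ℝ) (w : ℝ → ℂ), IsFiniteMeasure ν ∧ MemLp w 2 ν ∧ ∫ s, ‖w s‖ ∂ν ≤ C ∧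
      ∀ᵐ y : Dom A ∂(leb A), f y = ∫ s, ex y s * w s ∂ν := by
  have hFm := aemeasurable_ext0 hm
  have hFb := norm_ext0_le hC hfC
  have hint : ∀ φ : 𝓢(ℝ, ℂ), Integrable (fun y => φ y * ext0 f y) := fun φ =>
    φ.integrable.mul_bdd (c := C) hFm.aestronglyMeasurable (ae_of_all _ hFb)
  let _ : MeasurableSpace (OnePoint ℝ) := borel _
  have _ : BorelSpace (OnePoint ℝ) := ⟨rfl⟩
  -- the two linear maps
  let T : testSub A →ₗ[ℂ] C(OnePoint ℝ, ℂ) :=
    opExt ∘ₗ (SchwartzMap.fourierTransformCLM ℂ : 𝓢(ℝ, ℂ) →L[ℂ] 𝓢(ℝ, ℂ)).toLinearMap ∘ₗ (testSub A).subtype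
  have hT : ∀ (φ : testSub A) (ξ : ℝ), T φ (ξ : OnePoint ℝ) = 𝓕 ((φ : 𝓢(ℝ, ℂ)) : ℝ → ℂ) ξ :=
    fun φ ξ => rfl
  have hT' : ∀ (φ : testSub A), T φ OnePoint.infty = 0 := fun φ => rfl
  let l : testSub A →ₗ[ℂ] ℂ :=
    { toFun := fun φ => ∫ y, (φ : 𝓢(ℝ, ℂ)) y * ext0 f y
      map_add' := by
        intro φ ψ
        rw [← integral_add (hint _) (hint _)]
        congr 1
        funext y
        have : ((φ + ψ : testSub A) : 𝓢(ℝ, ℂ)) y = (φ : 𝓢(ℝ, ℂ)) y + (ψ : 𝓢(ℝ, ℂ)) y := rfl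
        rw [this, add_mul]
      map_smul' := by
        intro c φ
        simp only [RingHom.id_apply, smul_eq_mul]
        rw [← integral_const_mul]
        congr 1
        funext y
        have : ((c • φ : testSub A) : 𝓢(ℝ, ℂ)) y = c * (φ : 𝓢(ℝ, ℂ)) y := rfl
        rw [this, mul_assoc] }
  obtain ⟨Ψ, hΨC, hΨ⟩ := exists_functional T l C hC (by
    intro φ
    exact pair_bound hC hfC hm φ φ.2.1 φ.2.2 ‖T φ‖ (fun ξ => by
      rw [← hT φ ξ]
      exact (T φ).norm_coe_le_norm _))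
  obtain ⟨μ, hμ, hreg, u, hu⟩ := exists_density Ψ
  have huC : ∫ z, ‖u z‖ ∂μ ≤ C := (l1_bound Ψ u hu).trans hΨC
  have hemb : MeasurableEmbedding ((↑) : ℝ → OnePoint ℝ) :=
    OnePoint.isOpenEmbedding_coe.measurableEmbedding
  have hui : Integrable (u : OnePoint ℝ → ℂ) μ := (Lp.memLp u).integrable (by norm_num)
  set ν : Measure ℝ := μ.comap ((↑) : ℝ → OnePoint ℝ) with hν
  have hνfin : IsFiniteMeasure ν := by
    constructor
    rw [hν, hemb.comap_apply]
    exact measure_lt_top _ _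
  have hνmap : ν.map ((↑) : ℝ → OnePoint ℝ) = μ.restrict (range ((↑) : ℝ → OnePoint ℝ)) :=
    hemb.map_comap μ
  set w : ℝ → ℂ := fun s => (u : OnePoint ℝ → ℂ) (s : OnePoint ℝ) with hw
  have hw2 : MemLp w 2 ν := by
    have h1 : MemLp (u : OnePoint ℝ → ℂ) 2 (ν.map ((↑) : ℝ → OnePoint ℝ)) := by
      rw [hνmap]; exact (Lp.memLp u).restrict _
    exact (hemb.memLp_map_measure_iff).1 h1
  have hwi : Integrable w ν := hw2.integrable (by norm_num)
  have hwC : ∫ s, ‖w s‖ ∂ν ≤ C := by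
    have h1 : ∫ s, ‖w s‖ ∂ν = ∫ z in range ((↑) : ℝ → OnePoint ℝ), ‖u z‖ ∂μ := by
      rw [← hνmap, hemb.integral_map]
    rw [h1]
    refine (integral_mono_measure Measure.restrict_le_self ?_ hui.norm).trans huC
    exact ae_of_all _ fun z => norm_nonneg _
  refine ⟨ν, w, hνfin, hw2, hwC, ?_⟩
  have hrep : ∀ φ : testSub A, ∫ y, (φ : 𝓢(ℝ, ℂ)) y * ext0 f y =
      ∫ y, (φ : 𝓢(ℝ, ℂ)) y * ∫ s, ex y s * w s ∂ν := by
    intro φ
    have h1 : l φ = ∫ z, T φ z * u z ∂μ := by rw [← hΨ φ, hu]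
    have h2 : ∫ z, T φ z * u z ∂μ = ∫ z in range ((↑) : ℝ → OnePoint ℝ), T φ z * u z ∂μ := by
      symm
      apply setIntegral_eq_integral_of_forall_compl_eq_zero
      intro z hz
      have : z = OnePoint.infty := by
        by_contra h
        exact hz (OnePoint.ne_infty_iff_exists.1 h)
      rw [this, hT', zero_mul]
    have h3 : ∫ z in range ((↑) : ℝ → OnePoint ℝ), T φ z * u z ∂μ =
        ∫ s, 𝓕 ((φ : 𝓢(ℝ, ℂ)) : ℝ → ℂ) s * w s ∂ν := by
      rw [← hνmap, hemb.integral_map]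
      rfl
    have h4 : ∀ s : ℝ, 𝓕 ((φ : 𝓢(ℝ, ℂ)) : ℝ → ℂ) s = ∫ y, (φ : 𝓢(ℝ, ℂ)) y * ex y s := by
      intro s
      rw [Real.fourier_real_eq_integral_exp_smul]
      congr 1
      funext y
      rw [smul_eq_mul, mul_comm]
      unfold ex
      congr 2
      push_cast
      ring
    change l φ = _
    rw [h1, h2, h3]
    simp_rw [h4, ← integral_const_mul, ← integral_mul_const]
    rw [integral_integral_swap]
    · congr 1
      funext y
      congr 1
      funext s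
      ring
    · have h5 : Integrable (fun p : ℝ × ℝ => w p.1 * (φ : 𝓢(ℝ, ℂ)) p.2) (ν.prod volume) :=
        hwi.mul_prod (φ : 𝓢(ℝ, ℂ)).integrable
      have h6 : (Function.uncurry fun (s y : ℝ) => (φ : 𝓢(ℝ, ℂ)) y * ex y s * w s) =
          fun p : ℝ × ℝ => ex p.2 p.1 * (w p.1 * (φ : 𝓢(ℝ, ℂ)) p.2) := by
        funext p
        simp only [Function.uncurry]
        ring
      rw [h6]
      refine h5.bdd_mul (c := 1) ?_ (ae_of_all _ fun p => (norm_ex _ _).le)
      exact (continuous_ex.comp (by fun_prop : Continuous fun p : ℝ × ℝ => (p.2, p.1))).aestronglyMeasurable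
  set g : ℝ → ℂ := fun y => ∫ s, ex y s * w s ∂ν with hg
  have hgc : Continuous g := continuous_integral_ex hwi
  have hloc : LocallyIntegrable (fun y => ext0 f y - g y) := by
    refine LocallyIntegrable.sub ?_ hgc.locallyIntegrable
    have : LocallyIntegrable (fun _ : ℝ => C) := continuous_const.locallyIntegrable
    refine this.mono hFm.aestronglyMeasurable (ae_of_all _ fun y => ?_)
    rw [Real.norm_of_nonneg hC]
    exact hFb y
  have hae := (isOpen_dom A).ae_eq_zero_of_integral_contDiff_smul_eq_zero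
    (μ := (volume : Measure ℝ)) (f := fun y => ext0 f y - g y) (hloc.locallyIntegrableOn _) (by
      intro k hk hks hkA
      let k' : ℝ → ℂ := fun y => (k y : ℂ)
      have hk's : HasCompactSupport k' := hks.comp_left Complex.ofReal_zero
      have hk'c : ContDiff ℝ (⊤ : ℕ∞) k' := Complex.ofRealCLM.contDiff.comp hk
      have hk't : tsupport k' ⊆ tsupport k := closure_mono (fun x hx => by
        rw [Function.mem_support] at hx ⊢
        exact fun h => hx (by simp only [k', h, Complex.ofReal_zero]))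
      let φ : testSub A := ⟨hk's.toSchwartzMap hk'c, hk's, hk't.trans hkA⟩
      have h1 := hrep φ
      have h2 : ∀ y, (φ : 𝓢(ℝ, ℂ)) y = (k y : ℂ) := fun y => rfl
      have h3 : ∀ y, k y • (ext0 f y - g y) = (φ : 𝓢(ℝ, ℂ)) y * ext0 f y - (φ : 𝓢(ℝ, ℂ)) y * g y := by
        intro y
        rw [h2, Complex.real_smul, mul_sub]
      simp_rw [h3]
      rw [integral_sub (hint φ), h1, sub_self]
      have h4 : ∀ y, (φ : 𝓢(ℝ, ℂ)) y * g y = g y * (φ : 𝓢(ℝ, ℂ)) y := fun y => mul_comm _ _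
      simp_rw [h4]
      refine (φ : 𝓢(ℝ, ℂ)).integrable.bdd_mul (c := ∫ s, ‖w s‖ ∂ν) hgc.aestronglyMeasurable ?_
      refine ae_of_all _ fun y => ?_
      refine (norm_integral_le_integral_norm _).trans_eq ?_
      congr 1
      funext s
      rw [norm_mul, norm_ex, one_mul])
  have h5 : ∀ᵐ y : Dom A ∂(leb A), ext0 f (y : ℝ) = g y := by
    rw [ae_dom_iff (p := fun y => ext0 f y = g y)]
    filter_upwards [hae] with y hy hyA
    exact sub_eq_zero.1 (hy hyA)
  filter_upwards [h5] with y hy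
  rw [← ext0_coe f y, hy]

end Pool.Agent.Y99.JD
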