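import Mathlib
import Pool.Agent.Y99.JD.Dens

/-!
# Orthogonality to the null part
-/

set_option autoImplicit false
set_option linter.unusedSectionVars false

open MeasureTheory Filter Topology Set
open scoped InnerProductSpace
open Pool.Agent.H731R2

namespace Pool.Agent.Y99.JD

/-- A null vector and a vector orthogonal to the null vectors have disjoint supports. -/
theorem norm_add_of_null {μ : Measure Bohr} [IsFiniteMeasure μ] {p q : Lp ℂ 2 μ}
    (hp : p ∈ nullSub (UU μ)) (hq : q ∈ (nullSub (UU μ))ᗮ) :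
    ∀ᵐ x ∂μ, ‖p x + q x‖ = ‖p x‖ + ‖q x‖ := by
  set z : Bohr → ℂ := fun x => (starRingEnd ℂ) (p x) * q x with hz
  have hzm : Measurable z :=
    (Complex.continuous_conj.measurable.comp (Lp.stronglyMeasurable p).measurable).mul
      (Lp.stronglyMeasurable q).measurable
  have hzi : Integrable z μ := by
    refine (L2.integrable_inner (𝕜 := ℂ) p q).congr (ae_of_all _ fun x => ?_)
    simp [hz, mul_comm]
  have hb : AEStronglyMeasurable (fun x => (starRingEnd ℂ) (csg (z x))) μ :=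
    (Complex.continuous_conj.measurable.comp (measurable_csg.comp hzm)).aestronglyMeasurable
  have hb1 : ∀ x, ‖(starRingEnd ℂ) (csg (z x))‖ ≤ 1 := fun x => by
    rw [RCLike.norm_conj]; exact norm_csg_le _
  have h1 : ⟪mulOp _ hb hb1 p, q⟫_ℂ = 0 :=
    Submodule.inner_right_of_mem_orthogonal (mulOp_mem_null _ hb hb1 hp) hq
  rw [MeasureTheory.L2.inner_def] at h1
  have h2 : ∫ x, ((‖z x‖ : ℝ) : ℂ) ∂μ = 0 := by
    rw [← h1]
    apply integral_congr_ae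
    filter_upwards [coeFn_mulOp _ hb hb1 p] with x hx
    rw [hx, ← csg_mul]
    simp only [RCLike.inner_apply, map_mul, Complex.conj_conj, hz]
    ring
  rw [integral_complex_ofReal, Complex.ofReal_eq_zero] at h2
  have h3 := (integral_eq_zero_iff_of_nonneg (fun x => norm_nonneg (z x)) hzi.norm).1 h2
  filter_upwards [h3] with x hx
  have h4 : z x = 0 := norm_eq_zero.1 hx
  simp only [hz, mul_eq_zero, map_eq_zero] at h4
  rcases h4 with h | h
  · simp [h]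
  · simp [h]

section Prod

variable {H₁ H₂ : Type*} [NormedAddCommGroup H₁] [InnerProductSpace ℂ H₁]
  [NormedAddCommGroup H₂] [InnerProductSpace ℂ H₂]

/-- The diagonal operator on the Hilbert sum of two spaces. -/
noncomputable def prodOp (S : H₁ →L[ℂ] H₁) (T : H₂ →L[ℂ] H₂) :
    WithLp 2 (H₁ × H₂) →L[ℂ] WithLp 2 (H₁ × H₂) :=
  (WithLp.prodContinuousLinearEquiv 2 ℂ H₁ H₂).symm.toContinuousLinearMap ∘L
    (S.prodMap T) ∘L (WithLp.prodContinuousLinearEquiv 2 ℂ H₁ H₂).toContinuousLinearMap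

theorem prodOp_fst (S : H₁ →L[ℂ] H₁) (T : H₂ →L[ℂ] H₂) (x : WithLp 2 (H₁ × H₂)) :
    (prodOp S T x).fst = S x.fst := rfl

theorem prodOp_snd (S : H₁ →L[ℂ] H₁) (T : H₂ →L[ℂ] H₂) (x : WithLp 2 (H₁ × H₂)) :
    (prodOp S T x).snd = T x.snd := rfl

theorem prod_inner (x y : WithLp 2 (H₁ × H₂)) :
    ⟪x, y⟫_ℂ = ⟪x.fst, y.fst⟫_ℂ + ⟪x.snd, y.snd⟫_ℂ := WithLp.prod_inner_apply x y

theorem norm_prodOp_le {S : H₁ →L[ℂ] H₁} {T : H₂ →L[ℂ] H₂} (hS : ∀ x, ‖S x‖ ≤ ‖x‖)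
    (hT : ∀ x, ‖T x‖ ≤ ‖x‖) (x : WithLp 2 (H₁ × H₂)) : ‖prodOp S T x‖ ≤ ‖x‖ := by
  have h1 := WithLp.prod_norm_sq_eq_of_L2 (prodOp S T x)
  have h2 := WithLp.prod_norm_sq_eq_of_L2 x
  rw [prodOp_fst, prodOp_snd] at h1
  have h3 : ‖S x.fst‖ ^ 2 ≤ ‖x.fst‖ ^ 2 := pow_le_pow_left₀ (norm_nonneg _) (hS _) 2
  have h4 : ‖T x.snd‖ ^ 2 ≤ ‖x.snd‖ ^ 2 := pow_le_pow_left₀ (norm_nonneg _) (hT _) 2
  have h5 : ‖prodOp S T x‖ ^ 2 ≤ ‖x‖ ^ 2 := by rw [h1, h2]; exact add_le_add h3 h4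
  exact (pow_le_pow_iff_left₀ (norm_nonneg _) (norm_nonneg _) two_ne_zero).1 h5

end Prod

theorem ex_add (a b s : ℝ) : ex (a + b) s = ex a s * ex b s := by
  unfold ex
  rw [← Complex.exp_add]
  congr 1
  push_cast
  ring

theorem ex_zero (s : ℝ) : ex 0 s = 1 := by
  unfold ex
  simp

theorem continuous_ex' (a : ℝ) : Continuous (ex a) :=
  continuous_ex.comp (by fun_prop : Continuous fun s : ℝ => (a, s))

section Line

variable {ν : Measure ℝ} [IsFiniteMeasure ν]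

/-- Multiplication by the exponentials. -/
noncomputable def EE (ν : Measure ℝ) [IsFiniteMeasure ν] (a : ℝ) : Lp ℂ 2 ν →L[ℂ] Lp ℂ 2 ν :=
  mulOp (ex a) (continuous_ex' a).aestronglyMeasurable (fun s => (norm_ex a s).le)

theorem coeFn_EE (a : ℝ) (g : Lp ℂ 2 ν) : (EE ν a g : ℝ → ℂ) =ᵐ[ν] fun s => ex a s * g s :=
  coeFn_mulOp _ _ _ _

theorem EE_add (a b : ℝ) (g : Lp ℂ 2 ν) : EE ν (a + b) g = EE ν a (EE ν b g) := by
  apply Lp.ext
  filter_upwards [coeFn_EE (a + b) g, coeFn_EE a (EE ν b g), coeFn_EE b g] with x h1 h2 h3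
  rw [h1, h2, h3, ex_add, mul_assoc]

theorem norm_EE (a : ℝ) (g : Lp ℂ 2 ν) : ‖EE ν a g‖ ≤ ‖g‖ := norm_mulOp_le _ _ _ _

theorem inner_EE (a : ℝ) (g h : Lp ℂ 2 ν) :
    ⟪g, EE ν a h⟫_ℂ = ∫ s, (starRingEnd ℂ) (g s) * (ex a s * h s) ∂ν := by
  rw [MeasureTheory.L2.inner_def]
  apply integral_congr_ae
  filter_upwards [coeFn_EE a h] with x hx
  rw [hx]
  simp [mul_comm]

theorem EE_adj (a : ℝ) (g h : Lp ℂ 2 ν) : ⟪EE ν a g, h⟫_ℂ = ⟪g, EE ν (-a) h⟫_ℂ := by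
  rw [inner_EE, MeasureTheory.L2.inner_def]
  apply integral_congr_ae
  filter_upwards [coeFn_EE a g] with x hx
  rw [hx, ex_neg]
  simp only [RCLike.inner_apply, map_mul]
  ring

/-- The exponentials on `L²` of a finite measure on the line have no null vectors. -/
theorem null_EE {y : Lp ℂ 2 ν} (hy : ∀ᵐ a : ℝ, ⟪y, EE ν a y⟫_ℂ = 0) : y = 0 := by
  have hi : Integrable (fun s => (starRingEnd ℂ) (y s) * y s) ν := by
    refine (L2.integrable_inner (𝕜 := ℂ) y y).congr (ae_of_all _ fun x => ?_)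
    simp only [RCLike.inner_apply]
    ring
  have h1 : ∀ a : ℝ, ⟪y, EE ν a y⟫_ℂ = ∫ s, ex a s * ((starRingEnd ℂ) (y s) * y s) ∂ν := by
    intro a
    rw [inner_EE]
    congr 1
    funext s
    ring
  have h2 : (fun a : ℝ => ∫ s, ex a s * ((starRingEnd ℂ) (y s) * y s) ∂ν) =ᵐ[volume]
      fun _ => (0 : ℂ) := by
    filter_upwards [hy] with a ha
    rw [← h1, ha]
  have h3 := ((continuous_integral_ex hi).ae_eq_iff_eq volume continuous_const).1 h2
  have h4 : ⟪y, EE ν 0 y⟫_ℂ = 0 := by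
    rw [h1]
    exact congrFun h3 0
  rw [inner_EE] at h4
  have h5 : ⟪y, y⟫_ℂ = 0 := by
    rw [← h4, MeasureTheory.L2.inner_def]
    congr 1
    funext s
    rw [ex_zero, RCLike.inner_apply]
    ring
  exact inner_self_eq_zero.1 h5

end Line

/-- The coefficient of a vector orthogonal to the null vectors is continuous on every open set on
which it is almost everywhere equal to a Fourier transform. -/
theorem ortho_rep {μ : Measure Bohr} [IsFiniteMeasure μ] {q : Lp ℂ 2 μ}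
    (hq : q ∈ (nullSub (UU μ))ᗮ) {ν : Measure ℝ} [IsFiniteMeasure ν] {w : ℝ → ℂ}
    (hw : MemLp w 2 ν) {D : Set ℝ} (hD : IsOpen D)
    (h : ∀ᵐ a : ℝ, a ∈ D → ∫ x, chr a x * q x ∂μ = ∫ s, ex a s * w s ∂ν) :
    ∀ a ∈ D, ∫ x, chr a x * q x ∂μ = ∫ s, ex a s * w s ∂ν := by
  let one : Lp ℂ 2 μ := MemLp.toLp (fun _ => (1 : ℂ)) (memLp_const 1)
  have hone : (one : Bohr → ℂ) =ᵐ[μ] fun _ => (1 : ℂ) := MemLp.coeFn_toLp _
  let one' : Lp ℂ 2 ν := MemLp.toLp (fun _ => (1 : ℂ)) (memLp_const 1)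
  have hone' : (one' : ℝ → ℂ) =ᵐ[ν] fun _ => (1 : ℂ) := MemLp.coeFn_toLp _
  set W : Lp ℂ 2 ν := hw.toLp w with hW
  have hWae : (W : ℝ → ℂ) =ᵐ[ν] w := hw.coeFn_toLp
  set v : WithLp 2 (Lp ℂ 2 μ × Lp ℂ 2 ν) := WithLp.toLp 2 (q, -W) with hv
  set η : WithLp 2 (Lp ℂ 2 μ × Lp ℂ 2 ν) := WithLp.toLp 2 (one, one') with hη
  set U : ℝ → WithLp 2 (Lp ℂ 2 μ × Lp ℂ 2 ν) →L[ℂ] WithLp 2 (Lp ℂ 2 μ × Lp ℂ 2 ν) :=
    fun a => prodOp (UU μ a) (EE ν a) with hU
  have hi : ∀ a, ⟪η, U a v⟫_ℂ = ∫ x, chr a x * q x ∂μ - ∫ s, ex a s * w s ∂ν := by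
    intro a
    rw [prod_inner]
    change ⟪one, UU μ a q⟫_ℂ + ⟪one', EE ν a (-W)⟫_ℂ = _
    rw [map_neg, inner_neg_right, ← sub_eq_add_neg, inner_UU, inner_EE]
    congr 1
    · apply integral_congr_ae
      filter_upwards [hone] with x hx
      rw [hx]
      simp
    · apply integral_congr_ae
      filter_upwards [hone', hWae] with x hx hx'
      rw [hx, hx']
      simp
  have hadd : ∀ a b x, U (a + b) x = U a (U b x) := by
    intro a b x
    refine WithLp.ofLp_injective 2 ?_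
    refine Prod.ext ?_ ?_
    · exact UU_add a b x.fst
    · exact EE_add a b x.snd
  have hadj : ∀ a x y, ⟪U a x, y⟫_ℂ = ⟪x, U (-a) y⟫_ℂ := by
    intro a x y
    rw [prod_inner, prod_inner]
    exact congrArg₂ (· + ·) (UU_adj a x.fst y.fst) (EE_adj a x.snd y.snd)
  have hn : ∀ a x, ‖U a x‖ ≤ ‖x‖ := fun a x => norm_prodOp_le (norm_UU a) (norm_EE a) x
  have hvo : v ∈ (nullSub U)ᗮ := by
    rw [Submodule.mem_orthogonal]
    intro x hx
    have hx1 : x.fst ∈ nullSub (UU μ) := by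
      intro y
      have h1 := hx (WithLp.toLp 2 (y, 0))
      filter_upwards [h1] with a ha
      rw [prod_inner] at ha
      change ⟪y, UU μ a x.fst⟫_ℂ + ⟪(0 : Lp ℂ 2 ν), EE ν a x.snd⟫_ℂ = 0 at ha
      rwa [inner_zero_left, add_zero] at ha
    have hx2 : x.snd = 0 := by
      apply null_EE
      have h1 := hx (WithLp.toLp 2 (0, x.snd))
      filter_upwards [h1] with a ha
      rw [prod_inner] at ha
      change ⟪(0 : Lp ℂ 2 μ), UU μ a x.fst⟫_ℂ + ⟪x.snd, EE ν a x.snd⟫_ℂ = 0 at ha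
      rwa [inner_zero_left, zero_add] at ha
    rw [prod_inner, hx2, inner_zero_left, add_zero]
    exact Submodule.inner_right_of_mem_orthogonal hx1 hq
  have h0 : ∀ᵐ a : ℝ, a ∈ D → ⟪η, U a v⟫_ℂ = 0 := by
    filter_upwards [h] with a ha haD
    rw [hi, ha haD, sub_self]
  intro a ha
  have h1 := vanish_of_orthogonal hadd hadj hn hD hvo h0 a ha
  rw [hi] at h1
  exact sub_eq_zero.1 h1

end Pool.Agent.Y99.JD
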