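import Mathlib
import Pool.Agent.Y99.JD.Ortho

/-!
# The representation of a measurable element of `R_A` without loss of mass
-/

set_option autoImplicit false
set_option linter.unusedSectionVars false

open MeasureTheory Filter Topology Set
open scoped InnerProductSpace
open Pool.Agent.H731R2

namespace Pool.Agent.Y99.JD

variable {A : EReal}

section Gen

variable {X : Type*} [MeasurableSpace X] {ν : Measure X} {e : Dom A → X → ℂ} {w : X → ℂ}

theorem pairing_le_of_integral (hem : ∀ l, AEStronglyMeasurable (e l) ν)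
    (heb : ∀ l x, ‖e l x‖ ≤ 1) (hw : Integrable w ν)
    (h : ∀ (c : Dom A →₀ ℂ) (x : X), ‖c.sum fun l a => a * e l x‖ ≤ ⨆ t : ℝ, ‖apPoly c t‖)
    (c : Dom A →₀ ℂ) :
    ‖pairing (fun l => ∫ x, e l x * w x ∂ν) c‖ ≤ (∫ x, ‖w x‖ ∂ν) * ⨆ t : ℝ, ‖apPoly c t‖ := by
  rw [pairing_integral hem heb hw, mul_comm, ← integral_const_mul]
  refine norm_integral_le_of_norm_le (hw.norm.const_mul _) (ae_of_all _ fun x => ?_)
  rw [norm_mul]
  exact mul_le_mul_of_nonneg_right (h c x) (norm_nonneg _)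

end Gen

theorem pairing_chr_le {μ : Measure Bohr} {w : Bohr → ℂ} (hw : Integrable w μ)
    (c : Dom A →₀ ℂ) :
    ‖pairing (fun l : Dom A => ∫ x, chr l x * w x ∂μ) c‖ ≤
      (∫ x, ‖w x‖ ∂μ) * ⨆ t : ℝ, ‖apPoly c t‖ :=
  pairing_le_of_integral (e := fun (l : Dom A) x => chr l x)
    (fun l => (chr l).continuous.aestronglyMeasurable) (fun l x => (norm_chr l x).le) hw
    norm_bohrPoly_le c

theorem pairing_ex_le {ν : Measure ℝ} {w : ℝ → ℂ} (hw : Integrable w ν) (c : Dom A →₀ ℂ) :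
    ‖pairing (fun l : Dom A => ∫ s, ex l s * w s ∂ν) c‖ ≤
      (∫ s, ‖w s‖ ∂ν) * ⨆ t : ℝ, ‖apPoly c t‖ :=
  pairing_le_of_integral (e := fun (l : Dom A) s => ex l s)
    (fun l => (continuous_ex' l).aestronglyMeasurable) (fun l x => (norm_ex _ _).le) hw
    (fun c x => by rw [ex_sum]; exact le_sup c _) c

theorem integrable_chr {μ : Measure Bohr} {w : Bohr → ℂ} (hw : Integrable w μ) (a : ℝ) :
    Integrable (fun x => chr a x * w x) μ :=
  hw.bdd_mul (c := 1) (chr a).continuous.aestronglyMeasurable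
    (ae_of_all _ fun x => (norm_chr a x).le)

theorem integrable_ex {ν : Measure ℝ} {w : ℝ → ℂ} (hw : Integrable w ν) (a : ℝ) :
    Integrable (fun s => ex a s * w s) ν :=
  hw.bdd_mul (c := 1) (continuous_ex' a).aestronglyMeasurable
    (ae_of_all _ fun s => (norm_ex a s).le)

/-- The transform of a null vector vanishes almost everywhere on the line. -/
theorem null_transform {μ : Measure Bohr} [IsFiniteMeasure μ] {p : Lp ℂ 2 μ}
    (hp : p ∈ nullSub (UU μ)) : ∀ᵐ a : ℝ, ∫ x, chr a x * p x ∂μ = 0 := by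
  have hone : ((MemLp.toLp (fun _ => (1 : ℂ)) (memLp_const 1) : Lp ℂ 2 μ) : Bohr → ℂ) =ᵐ[μ]
      fun _ => (1 : ℂ) := MemLp.coeFn_toLp _
  filter_upwards [hp (MemLp.toLp (fun _ => (1 : ℂ)) (memLp_const 1))] with a ha
  rw [inner_UU] at ha
  rw [← ha]
  apply integral_congr_ae
  filter_upwards [hone] with x hx
  rw [hx]
  simp

/-- Two functions on `(-A, A)`, restrictions of functions that are continuous there, agree when
they agree almost everywhere. -/
theorem eq_of_ae {f g : Dom A → ℂ} (hf : Continuous f) (hg : Continuous g)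
    (h : ∀ᵐ y ∂(leb A), f y = g y) (l : Dom A) : f l = g l := by
  have hc : ∀ k : Dom A → ℂ, Continuous k → ContinuousOn (ext0 k) (Dom A) := by
    intro k hk
    rw [continuousOn_iff_continuous_domRestrict]
    have : (Dom A).domRestrict (ext0 k) = k := by
      funext y
      exact ext0_coe k y
    rw [this]
    exact hk
  have h1 : ∀ᵐ y : ℝ, y ∈ Dom A → ext0 f y = ext0 g y := by
    rw [← ae_dom_iff (p := fun y => ext0 f y = ext0 g y)]
    filter_upwards [h] with y hy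
    rw [ext0_coe, ext0_coe, hy]
  have h2 : ext0 f =ᵐ[volume.restrict (Dom A)] ext0 g := by
    rw [EventuallyEq, ae_restrict_iff' (measurableSet_dom A)]
    exact h1
  have h3 := Measure.eqOn_open_of_ae_eq h2 (isOpen_dom A) (hc f hf) (hc g hg)
  have h4 := h3 l.2
  rwa [ext0_coe, ext0_coe] at h4

/-- A measurable element of `R_A` is the sum of the transform of a measure on the line and of the
transform of a null density on the compactification; the total mass is bounded by every bound of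
the functional. -/
theorem core {f : Dom A → ℂ} {C : ℝ} (hC : 0 ≤ C)
    (hfC : ∀ c : Dom A →₀ ℂ, ‖pairing f c‖ ≤ C * ⨆ t : ℝ, ‖apPoly c t‖)
    (hm : AEMeasurable f (leb A)) :
    ∃ (ν : Measure ℝ) (w : ℝ → ℂ) (μ : Measure Bohr) (_ : IsFiniteMeasure μ) (p : Lp ℂ 2 μ),
      Integrable w ν ∧ p ∈ nullSub (UU μ) ∧ (∫ s, ‖w s‖ ∂ν) + (∫ x, ‖p x‖ ∂μ) ≤ C ∧
      ∀ l : Dom A, f l = (∫ s, ex l s * w s ∂ν) + ∫ x, chr l x * p x ∂μ := by
  obtain ⟨μ, hμ, u, huC, hu⟩ := exists_bohr_rep_norm hC hfC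
  obtain ⟨ν₀, w₀, hν₀, hw₀, -, hae⟩ := exists_rep_norm hC hfC hm
  have hc : CompleteSpace (nullSub (UU μ)) := (isClosed_nullSub (U := UU μ)).completeSpace_coe
  obtain ⟨p, hp, q, hq, hupq⟩ : ∃ p ∈ nullSub (UU μ), ∃ q ∈ (nullSub (UU μ))ᗮ, u = p + q :=
    (nullSub (UU μ)).exists_add_mem_mem_orthogonal u
  have hpi : Integrable (p : Bohr → ℂ) μ := (Lp.memLp p).integrable (by norm_num)
  have hqi : Integrable (q : Bohr → ℂ) μ := (Lp.memLp q).integrable (by norm_num)
  have huae : (u : Bohr → ℂ) =ᵐ[μ] fun x => p x + q x := by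
    rw [hupq]
    exact Lp.coeFn_add p q
  have hsum : ∀ a : ℝ, ∫ x, chr a x * u x ∂μ =
      (∫ x, chr a x * p x ∂μ) + ∫ x, chr a x * q x ∂μ := by
    intro a
    rw [← integral_add (integrable_chr hpi a) (integrable_chr hqi a)]
    apply integral_congr_ae
    filter_upwards [huae] with x hx
    rw [hx, mul_add]
  have hpn := null_transform hp
  have h1 : ∀ᵐ a : ℝ, a ∈ Dom A → ∫ x, chr a x * q x ∂μ = ∫ s, ex a s * w₀ s ∂ν₀ := by
    have h2 : ∀ᵐ a : ℝ, a ∈ Dom A → ext0 f a = ∫ s, ex a s * w₀ s ∂ν₀ := by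
      rw [← ae_dom_iff (p := fun a => ext0 f a = ∫ s, ex a s * w₀ s ∂ν₀)]
      filter_upwards [hae] with y hy
      rw [ext0_coe, hy]
    filter_upwards [h2, hpn] with a h3 h4 ha
    rw [← h3 ha]
    have h5 : f ⟨a, ha⟩ = ∫ x, chr a x * u x ∂μ := hu ⟨a, ha⟩
    have h6 : ext0 f a = f ⟨a, ha⟩ := ext0_coe f ⟨a, ha⟩
    rw [h6, h5, hsum, h4, zero_add]
  have hq' := ortho_rep hq hw₀ (isOpen_dom A) h1
  have hw₀i : Integrable w₀ ν₀ := hw₀.integrable (by norm_num)
  have hC' : 0 ≤ ∫ x, ‖q x‖ ∂μ := integral_nonneg fun _ => norm_nonneg _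
  have hgC : ∀ c : Dom A →₀ ℂ, ‖pairing (fun l : Dom A => ∫ x, chr l x * q x ∂μ) c‖ ≤
      (∫ x, ‖q x‖ ∂μ) * ⨆ t : ℝ, ‖apPoly c t‖ := fun c => pairing_chr_le hqi c
  have hgc : Continuous (fun l : Dom A => ∫ x, chr l x * q x ∂μ) := by
    have h2 : (fun l : Dom A => ∫ x, chr l x * q x ∂μ) =
        fun l : Dom A => ∫ s, ex l s * w₀ s ∂ν₀ := by
      funext l
      exact hq' l l.2
    rw [h2]
    exact (continuous_integral_ex hw₀i).comp continuous_subtype_val
  obtain ⟨ν, w, hν, hw, hwC, hwae⟩ := exists_rep_norm hC' hgC hgc.aemeasurable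
  have hwi : Integrable w ν := hw.integrable (by norm_num)
  have heq : ∀ l : Dom A, ∫ x, chr l x * q x ∂μ = ∫ s, ex l s * w s ∂ν :=
    fun l => eq_of_ae hgc ((continuous_integral_ex hwi).comp continuous_subtype_val) hwae l
  refine ⟨ν, w, μ, hμ, p, hwi, hp, ?_, ?_⟩
  · have h2 : ∫ x, ‖u x‖ ∂μ = (∫ x, ‖p x‖ ∂μ) + ∫ x, ‖q x‖ ∂μ := by
      rw [← integral_add hpi.norm hqi.norm]
      apply integral_congr_ae
      filter_upwards [huae, norm_add_of_null hp hq] with x hx hx'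
      rw [hx, hx']
    linarith
  · intro l
    rw [hu l, hsum, heq, add_comm]

/-- The norm of the functional with characteristic function `f`. -/
noncomputable def normR (f : Dom A → ℂ) : ℝ :=
  sInf {C : ℝ | 0 ≤ C ∧ ∀ c : Dom A →₀ ℂ, ‖pairing f c‖ ≤ C * ⨆ t : ℝ, ‖apPoly c t‖}

theorem normR_nonneg (f : Dom A → ℂ) : 0 ≤ normR f :=
  Real.sInf_nonneg fun _ h => h.1

theorem normR_le {f : Dom A → ℂ} {C : ℝ} (hC : 0 ≤ C)
    (h : ∀ c : Dom A →₀ ℂ, ‖pairing f c‖ ≤ C * ⨆ t : ℝ, ‖apPoly c t‖) : normR f ≤ C :=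
  csInf_le ⟨0, fun _ h => h.1⟩ ⟨hC, h⟩

theorem normR_spec {f : Dom A → ℂ} (hf : MemR f) (c : Dom A →₀ ℂ) :
    ‖pairing f c‖ ≤ normR f * ⨆ t : ℝ, ‖apPoly c t‖ := by
  obtain ⟨C₀, hC₀, h₀⟩ := hf.exists_nonneg
  have hne : {C : ℝ | 0 ≤ C ∧ ∀ c : Dom A →₀ ℂ, ‖pairing f c‖ ≤ C * ⨆ t : ℝ, ‖apPoly c t‖}.Nonempty :=
    ⟨C₀, hC₀, h₀⟩
  rcases (sup_nonneg c).eq_or_lt with h | h
  · have h1 := h₀ c
    rw [← h, mul_zero] at h1 ⊢
    exact h1
  · rw [← div_le_iff₀ h]
    refine le_csInf hne ?_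
    rintro C ⟨-, hC⟩
    rw [div_le_iff₀ h]
    exact hC c

theorem normR_add_le {f g : Dom A → ℂ} (hf : MemR f) (hg : MemR g) :
    normR (fun l => f l + g l) ≤ normR f + normR g := by
  refine normR_le (add_nonneg (normR_nonneg f) (normR_nonneg g)) fun c => ?_
  have : pairing (fun l => f l + g l) c = pairing f c + pairing g c := by
    unfold pairing Finsupp.sum
    rw [← Finset.sum_add_distrib]
    exact Finset.sum_congr rfl fun _ _ => by ring
  rw [this, add_mul]
  exact (norm_add_le _ _).trans (add_le_add (normR_spec hf c) (normR_spec hg c))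

/-- The norm is additive on the splitting of a measurable element of `R_A`. -/
theorem norm_split {fc fm : Dom A → ℂ} (hfc : MemR fc) (hcc : Continuous fc) (hfm : MemR fm)
    (h0 : ∀ᵐ y ∂(leb A), fm y = 0) :
    normR (fun l => fc l + fm l) = normR fc + normR fm := by
  refine le_antisymm (normR_add_le hfc hfm) ?_
  have hfmm : AEMeasurable fm (leb A) := ⟨fun _ => 0, measurable_const, h0⟩
  have hm : AEMeasurable (fun l => fc l + fm l) (leb A) := hcc.aemeasurable.add hfmm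
  obtain ⟨ν, w, μ, hμ, p, hw, hp, hle, hrep⟩ :=
    core (normR_nonneg _) (normR_spec (hfc.add hfm)) hm
  have hpi : Integrable (p : Bohr → ℂ) μ := (Lp.memLp p).integrable (by norm_num)
  have hpn : ∀ᵐ y : Dom A ∂(leb A), ∫ x, chr (y : ℝ) x * p x ∂μ = 0 := by
    rw [ae_dom_iff (p := fun y => ∫ x, chr y x * p x ∂μ = 0)]
    filter_upwards [null_transform hp] with a ha _
    exact ha
  have h1 : ∀ l : Dom A, fc l = ∫ s, ex l s * w s ∂ν := by
    refine eq_of_ae hcc ((continuous_integral_ex hw).comp continuous_subtype_val) ?_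
    filter_upwards [h0, hpn] with y h2 h3
    have h4 := hrep y
    rw [h2, h3, add_zero, add_zero] at h4
    exact h4
  have h2 : ∀ l : Dom A, fm l = ∫ x, chr l x * p x ∂μ := by
    intro l
    have h4 := hrep l
    rw [h1 l] at h4
    exact add_left_cancel h4
  have h3 : normR fc ≤ ∫ s, ‖w s‖ ∂ν := by
    refine normR_le (integral_nonneg fun _ => norm_nonneg _) fun c => ?_
    rw [show fc = fun l : Dom A => ∫ s, ex l s * w s ∂ν from funext h1]
    exact pairing_ex_le hw c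
  have h4 : normR fm ≤ ∫ x, ‖p x‖ ∂μ := by
    refine normR_le (integral_nonneg fun _ => norm_nonneg _) fun c => ?_
    rw [show fm = fun l : Dom A => ∫ x, chr l x * p x ∂μ from funext h2]
    exact pairing_chr_le hpi c
  linarith

end Pool.Agent.Y99.JD
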