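import Mathlib
import Pool.Agent.Y99.JD.Core

/-!
# Norm preserving measurable extensions and the Jordan decomposition
-/

set_option autoImplicit false
set_option linter.unusedSectionVars false

open MeasureTheory Filter Topology Set
open scoped InnerProductSpace
open Pool.Agent.H731R2

namespace Pool.Agent.Y99.JD

variable {A B : EReal}

theorem mem_dom_top (x : ℝ) : x ∈ Dom (⊤ : EReal) := by
  refine ⟨?_, EReal.coe_lt_top x⟩
  rw [EReal.neg_top]
  exact EReal.bot_lt_coe x

/-- The inclusion of `(-A, A)` in the line. -/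
def incl (l : Dom A) : Dom (⊤ : EReal) := ⟨l, mem_dom_top l⟩

theorem pairing_incl (F : ℝ → ℂ) (c : Dom A →₀ ℂ) :
    pairing (fun l : Dom (⊤ : EReal) => F l) (c.mapDomain incl) =
      pairing (fun l : Dom A => F l) c := by
  unfold pairing
  rw [Finsupp.sum_mapDomain_index (by simp) (by intros; ring)]
  rfl

theorem apPoly_incl (c : Dom A →₀ ℂ) (t : ℝ) : apPoly (c.mapDomain incl) t = apPoly c t := by
  unfold apPoly
  rw [Finsupp.sum_mapDomain_index (by simp) (by intros; ring)]
  rfl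

/-- Restriction does not increase the norm. -/
theorem normR_restrict_le {F : ℝ → ℂ} (hF : MemR (fun l : Dom (⊤ : EReal) => F l)) :
    normR (fun l : Dom A => F l) ≤ normR (fun l : Dom (⊤ : EReal) => F l) := by
  refine normR_le (normR_nonneg _) fun c => ?_
  have h1 := normR_spec hF (c.mapDomain incl)
  rw [pairing_incl] at h1
  simp_rw [apPoly_incl] at h1
  exact h1

/-- The transform of a pair of densities. -/
noncomputable def tr (ν : Measure ℝ) (w : ℝ → ℂ) (μ : Measure Bohr) (p : Bohr → ℂ) (a : ℝ) : ℂ :=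
  (∫ s, ex a s * w s ∂ν) + ∫ x, chr a x * p x ∂μ

theorem chr_zero (x : Bohr) : chr 0 x = 1 := by
  have h := chr_add 0 0 x
  rw [add_zero] at h
  have h1 : chr 0 x ≠ 0 := by
    intro h0
    have h2 := norm_chr 0 x
    rw [h0, norm_zero] at h2
    exact zero_ne_one h2
  have h2 : chr 0 x * 1 = chr 0 x * chr 0 x := by rw [mul_one]; exact h
  exact (mul_left_cancel₀ h1 h2).symm

section Tr

variable {ν : Measure ℝ} {w : ℝ → ℂ} {μ : Measure Bohr} {p : Bohr → ℂ}

theorem pairing_tr_le (hw : Integrable w ν) (hp : Integrable p μ) (c : Dom B →₀ ℂ) :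
    ‖pairing (fun l : Dom B => tr ν w μ p l) c‖ ≤
      ((∫ s, ‖w s‖ ∂ν) + ∫ x, ‖p x‖ ∂μ) * ⨆ t : ℝ, ‖apPoly c t‖ := by
  have h1 : pairing (fun l : Dom B => tr ν w μ p l) c =
      pairing (fun l : Dom B => ∫ s, ex l s * w s ∂ν) c +
        pairing (fun l : Dom B => ∫ x, chr l x * p x ∂μ) c := by
    unfold pairing Finsupp.sum tr
    rw [← Finset.sum_add_distrib]
    exact Finset.sum_congr rfl fun _ _ => by ring
  rw [h1, add_mul]
  exact (norm_add_le _ _).trans (add_le_add (pairing_ex_le hw c) (pairing_chr_le hp c))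

theorem tr_memR (hw : Integrable w ν) (hp : Integrable p μ) :
    MemR (fun l : Dom B => tr ν w μ p l) := ⟨_, pairing_tr_le hw hp⟩

theorem normR_tr_le (hw : Integrable w ν) (hp : Integrable p μ) :
    normR (fun l : Dom B => tr ν w μ p l) ≤ (∫ s, ‖w s‖ ∂ν) + ∫ x, ‖p x‖ ∂μ :=
  normR_le (add_nonneg (integral_nonneg fun _ => norm_nonneg _)
    (integral_nonneg fun _ => norm_nonneg _)) (pairing_tr_le hw hp)

theorem tr_aemeasurable (hw : Integrable w ν) (hp0 : ∀ᵐ a : ℝ, ∫ x, chr a x * p x ∂μ = 0) :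
    AEMeasurable (fun l : Dom B => tr ν w μ p l) (leb B) := by
  refine ⟨fun l => ∫ s, ex l s * w s ∂ν,
    ((continuous_integral_ex hw).comp continuous_subtype_val).measurable, ?_⟩
  have h1 : ∀ᵐ y : Dom B ∂(leb B), ∫ x, chr (y : ℝ) x * p x ∂μ = 0 := by
    rw [ae_dom_iff (p := fun y => ∫ x, chr y x * p x ∂μ = 0)]
    filter_upwards [hp0] with a ha _
    exact ha
  filter_upwards [h1] with y hy
  unfold tr
  rw [hy, add_zero]

theorem tr_zero : tr ν w μ p 0 = (∫ s, w s ∂ν) + ∫ x, p x ∂μ := by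
  unfold tr
  simp_rw [ex_zero, chr_zero, one_mul]

end Tr

section TrReal

variable {ν : Measure ℝ} {r : ℝ → ℝ} {μ : Measure Bohr} {v : Bohr → ℝ}

theorem tr_memP (hr : Integrable r ν) (hv : Integrable v μ) (hr0 : ∀ s, 0 ≤ r s)
    (hv0 : ∀ x, 0 ≤ v x) :
    MemP (fun l : Dom B => tr ν (fun s => (r s : ℂ)) μ (fun x => (v x : ℂ)) l) := by
  have h1 : MemP (fun l : Dom B => ∫ s, ex l s * (r s : ℂ) ∂ν) := memP_ex hr hr0
  have h2 : MemP (fun l : Dom B => ∫ x, chr l x * (v x : ℂ) ∂μ) :=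
    memP_of_integral (e := fun (l : Dom B) x => chr l x)
      (fun l => (chr l).continuous.aestronglyMeasurable) (fun l x => (norm_chr l x).le) hv hv0
      norm_bohrPoly_le bohrPoly_nonneg
  exact h1.add h2

theorem tr_neg (a : ℝ) : tr ν (fun s => (r s : ℂ)) μ (fun x => (v x : ℂ)) (-a) =
    (starRingEnd ℂ) (tr ν (fun s => (r s : ℂ)) μ (fun x => (v x : ℂ)) a) := by
  unfold tr
  rw [map_add, ← integral_conj, ← integral_conj]
  congr 1
  · congr 1
    funext s
    rw [ex_neg, map_mul, Complex.conj_ofReal]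
  · congr 1
    funext x
    rw [chr_neg, map_mul, Complex.conj_ofReal]

end TrReal

/-- For a Hermitian function the densities can be replaced by their real parts. -/
theorem herm_rep {f : Dom A → ℂ} (hH : Hermitian f) {ν : Measure ℝ} {w : ℝ → ℂ}
    {μ : Measure Bohr} {p : Bohr → ℂ} (hw : Integrable w ν) (hp : Integrable p μ)
    (hrep : ∀ l : Dom A, f l = tr ν w μ p l) (l : Dom A) :
    f l = tr ν (fun s => ((w s).re : ℂ)) μ (fun x => ((p x).re : ℂ)) l := by
  have hwc : Integrable (fun s => (starRingEnd ℂ) (w s)) ν :=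
    (LinearIsometryEquiv.integrable_comp_iff Complex.conjLIE).2 hw
  have hpc : Integrable (fun x => (starRingEnd ℂ) (p x)) μ :=
    (LinearIsometryEquiv.integrable_comp_iff Complex.conjLIE).2 hp
  have h1 : f l = (starRingEnd ℂ) (f ⟨-(l : ℝ), neg_mem_dom l.2⟩) := by
    rw [hH l, Complex.conj_conj]
  have h2 : (starRingEnd ℂ) (f ⟨-(l : ℝ), neg_mem_dom l.2⟩) =
      (∫ s, ex l s * (starRingEnd ℂ) (w s) ∂ν) + ∫ x, chr l x * (starRingEnd ℂ) (p x) ∂μ := by
    rw [hrep]
    unfold tr
    rw [map_add, ← integral_conj, ← integral_conj]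
    congr 1
    · congr 1
      funext s
      simp only
      rw [ex_neg, map_mul, Complex.conj_conj]
    · congr 1
      funext x
      simp only
      rw [chr_neg, map_mul, Complex.conj_conj]
  have h3 : f l = (1 / 2 : ℂ) * (f l + (starRingEnd ℂ) (f ⟨-(l : ℝ), neg_mem_dom l.2⟩)) := by
    rw [← h1]; ring
  rw [h3, h2, hrep l]
  unfold tr
  have h4 : ∫ s, ex (l : ℝ) s * ((w s).re : ℂ) ∂ν = (1 / 2 : ℂ) * ((∫ s, ex (l : ℝ) s * w s ∂ν) +
      ∫ s, ex (l : ℝ) s * (starRingEnd ℂ) (w s) ∂ν) := by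
    rw [← integral_add (integrable_ex hw l) (integrable_ex hwc l), ← integral_const_mul]
    congr 1
    funext s
    have : ((w s).re : ℂ) = (1 / 2 : ℂ) * (w s + (starRingEnd ℂ) (w s)) := by
      rw [Complex.add_conj]
      simp
    rw [this]
    ring
  have h5 : ∫ x, chr (l : ℝ) x * ((p x).re : ℂ) ∂μ = (1 / 2 : ℂ) * ((∫ x, chr (l : ℝ) x * p x ∂μ) +
      ∫ x, chr (l : ℝ) x * (starRingEnd ℂ) (p x) ∂μ) := by
    rw [← integral_add (integrable_chr hp l) (integrable_chr hpc l), ← integral_const_mul]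
    congr 1
    funext x
    have : ((p x).re : ℂ) = (1 / 2 : ℂ) * (p x + (starRingEnd ℂ) (p x)) := by
      rw [Complex.add_conj]
      simp
    rw [this]
    ring
  rw [h4, h5]
  ring

/-- The real part of a null density, multiplied by a bounded function, has a transform which
vanishes almost everywhere. -/
theorem null_mul_re {μ : Measure Bohr} [IsFiniteMeasure μ] {p : Lp ℂ 2 μ}
    (hp : p ∈ nullSub (UU μ)) (b : Bohr → ℝ) (hb : Measurable b) (hb1 : ∀ x, |b x| ≤ 1) :
    ∀ᵐ a : ℝ, ∫ x, chr a x * ((b x * (p x).re : ℝ) : ℂ) ∂μ = 0 := by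
  set q : Lp ℂ 2 μ := (1 / 2 : ℂ) • (p + star p) with hq
  have hqnull : q ∈ nullSub (UU μ) :=
    (nullSub (UU μ)).smul_mem _ ((nullSub (UU μ)).add_mem hp (star_mem_null hp))
  have hqw : (q : Bohr → ℂ) =ᵐ[μ] fun x => ((p x).re : ℂ) := by
    filter_upwards [Lp.coeFn_smul (1 / 2 : ℂ) (p + star p), Lp.coeFn_add p (star p),
      Lp.coeFn_star p] with x h1 h2 h3
    rw [hq, h1, Pi.smul_apply, h2, Pi.add_apply, h3, Pi.star_apply, smul_eq_mul]
    apply Complex.ext
    · simp
      ring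
    · simp
  have hbm : AEStronglyMeasurable (fun x => (b x : ℂ)) μ :=
    (Complex.measurable_ofReal.comp hb).aestronglyMeasurable
  have hbn : ∀ x, ‖(b x : ℂ)‖ ≤ 1 := fun x => by
    rw [Complex.norm_real]; exact hb1 x
  filter_upwards [null_transform (mulOp_mem_null _ hbm hbn hqnull)] with a ha
  rw [← ha]
  apply integral_congr_ae
  filter_upwards [coeFn_mulOp _ hbm hbn q, hqw] with x h1 h2
  rw [h1, h2]
  push_cast
  rfl

/-- The positive and the negative part of the real part of a null density have transforms which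
vanish almost everywhere. -/
theorem null_parts {μ : Measure Bohr} [IsFiniteMeasure μ] {p : Lp ℂ 2 μ}
    (hp : p ∈ nullSub (UU μ)) :
    (∀ᵐ a : ℝ, ∫ x, chr a x * ((max (p x).re 0 : ℝ) : ℂ) ∂μ = 0) ∧
      ∀ᵐ a : ℝ, ∫ x, chr a x * ((max (-(p x).re) 0 : ℝ) : ℂ) ∂μ = 0 := by
  classical
  have hm : Measurable (fun x => (p x).re) :=
    Complex.measurable_re.comp (Lp.stronglyMeasurable p).measurable
  constructor
  · have h1 := null_mul_re hp ({x | 0 ≤ (p x).re}.indicator fun _ => 1)
      (measurable_const.indicator (measurableSet_le measurable_const hm)) (by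
        intro x
        by_cases hx : x ∈ {x | 0 ≤ (p x).re}
        · rw [indicator_of_mem hx]; norm_num
        · rw [indicator_of_notMem hx]; norm_num)
    filter_upwards [h1] with a ha
    rw [← ha]
    congr 1
    funext x
    congr 2
    by_cases hx : 0 ≤ (p x).re
    · rw [indicator_of_mem (show x ∈ {x | 0 ≤ (p x).re} from hx), one_mul, max_eq_left hx]
    · rw [indicator_of_notMem (show x ∉ {x | 0 ≤ (p x).re} from hx), zero_mul,
        max_eq_right (not_le.1 hx).le]
  · have h1 := null_mul_re hp ({x | (p x).re ≤ 0}.indicator fun _ => -1)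
      (measurable_const.indicator (measurableSet_le hm measurable_const)) (by
        intro x
        by_cases hx : x ∈ {x | (p x).re ≤ 0}
        · rw [indicator_of_mem hx]; norm_num
        · rw [indicator_of_notMem hx]; norm_num)
    filter_upwards [h1] with a ha
    rw [← ha]
    congr 1
    funext x
    congr 2
    by_cases hx : (p x).re ≤ 0
    · rw [indicator_of_mem (show x ∈ {x | (p x).re ≤ 0} from hx),
        max_eq_left (by linarith : (0 : ℝ) ≤ -(p x).re)]
      ring
    · rw [indicator_of_notMem (show x ∉ {x | (p x).re ≤ 0} from hx), zero_mul,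
        max_eq_right (by linarith [not_le.1 hx])]

/-- Norm preserving measurable extension to the whole line. -/
theorem exists_extension {f : Dom A → ℂ} (hf : MemR f) (hm : AEMeasurable f (leb A)) :
    ∃ F : ℝ → ℂ, MemR (fun l : Dom (⊤ : EReal) => F l) ∧
      AEMeasurable (fun l : Dom (⊤ : EReal) => F l) (leb ⊤) ∧ (∀ l : Dom A, F l = f l) ∧
      normR (fun l : Dom (⊤ : EReal) => F l) = normR f := by
  obtain ⟨ν, w, μ, hμ, p, hw, hp, hle, hrep⟩ := core (normR_nonneg _) (normR_spec hf) hm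
  have hpi : Integrable (p : Bohr → ℂ) μ := (Lp.memLp p).integrable (by norm_num)
  have hR : MemR (fun l : Dom (⊤ : EReal) => tr ν w μ p l) := tr_memR hw hpi
  have hfe : (fun l : Dom A => tr ν w μ p l) = f := by
    funext l
    exact (hrep l).symm
  refine ⟨tr ν w μ p, hR, tr_aemeasurable hw (null_transform hp), fun l => (hrep l).symm, ?_⟩
  refine le_antisymm ((normR_tr_le hw hpi).trans hle) ?_
  have h1 := normR_restrict_le (A := A) hR
  rwa [hfe] at h1

/-- Jordan decomposition on the whole line with equality of norms. -/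
theorem jordan_norm {f : Dom A → ℂ} (hf : MemR f) (hm : AEMeasurable f (leb A))
    (hH : Hermitian f) :
    ∃ F₁ F₂ : ℝ → ℂ,
      (∀ B : EReal, (MemP (fun l : Dom B => F₁ l) ∧ AEMeasurable (fun l : Dom B => F₁ l) (leb B)) ∧
        (MemP (fun l : Dom B => F₂ l) ∧ AEMeasurable (fun l : Dom B => F₂ l) (leb B))) ∧
      (∀ l : Dom A, f l = F₁ l - F₂ l) ∧ F₁ 0 + F₂ 0 = (normR f : ℂ) := by
  obtain ⟨ν, w, μ, hμ, p, hw, hp, hle, hrep⟩ := core (normR_nonneg _) (normR_spec hf) hm
  have hpi : Integrable (p : Bohr → ℂ) μ := (Lp.memLp p).integrable (by norm_num)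
  have hrep' := herm_rep hH hw hpi hrep
  obtain ⟨hn1, hn2⟩ := null_parts hp
  have hr1 : Integrable (fun s => max (w s).re 0) ν := hw.re.pos_part
  have hr2 : Integrable (fun s => max (-(w s).re) 0) ν := hw.re.neg_part
  have hv1 : Integrable (fun x => max (p x).re 0) μ := hpi.re.pos_part
  have hv2 : Integrable (fun x => max (-(p x).re) 0) μ := hpi.re.neg_part
  have hr1c : Integrable (fun s => ((max (w s).re 0 : ℝ) : ℂ)) ν := hr1.ofReal
  have hr2c : Integrable (fun s => ((max (-(w s).re) 0 : ℝ) : ℂ)) ν := hr2.ofReal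
  have hv1c : Integrable (fun x => ((max (p x).re 0 : ℝ) : ℂ)) μ := hv1.ofReal
  have hv2c : Integrable (fun x => ((max (-(p x).re) 0 : ℝ) : ℂ)) μ := hv2.ofReal
  have hsub : ∀ t : ℝ, t = max t 0 - max (-t) 0 := by
    intro t
    rcases le_total t 0 with h | h
    · rw [max_eq_right h, max_eq_left (by linarith)]; ring
    · rw [max_eq_left h, max_eq_right (by linarith)]; ring
  have hadd : ∀ t : ℝ, max t 0 + max (-t) 0 = |t| := by
    intro t
    rcases le_total t 0 with h | h
    · rw [max_eq_right h, max_eq_left (by linarith), abs_of_nonpos h]; ring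
    · rw [max_eq_left h, max_eq_right (by linarith), abs_of_nonneg h]; ring
  have hfd : ∀ l : Dom A, f l =
      tr ν (fun s => ((max (w s).re 0 : ℝ) : ℂ)) μ (fun x => ((max (p x).re 0 : ℝ) : ℂ)) l -
      tr ν (fun s => ((max (-(w s).re) 0 : ℝ) : ℂ)) μ
        (fun x => ((max (-(p x).re) 0 : ℝ) : ℂ)) l := by
    intro l
    rw [hrep' l]
    unfold tr
    have h1 : ∫ s, ex (l : ℝ) s * ((w s).re : ℂ) ∂ν =
        (∫ s, ex (l : ℝ) s * ((max (w s).re 0 : ℝ) : ℂ) ∂ν) -
          ∫ s, ex (l : ℝ) s * ((max (-(w s).re) 0 : ℝ) : ℂ) ∂ν := by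
      rw [← integral_sub (integrable_ex hr1c l) (integrable_ex hr2c l)]
      congr 1
      funext s
      rw [← mul_sub, ← Complex.ofReal_sub, ← hsub]
    have h2 : ∫ x, chr (l : ℝ) x * ((p x).re : ℂ) ∂μ =
        (∫ x, chr (l : ℝ) x * ((max (p x).re 0 : ℝ) : ℂ) ∂μ) -
          ∫ x, chr (l : ℝ) x * ((max (-(p x).re) 0 : ℝ) : ℂ) ∂μ := by
      rw [← integral_sub (integrable_chr hv1c l) (integrable_chr hv2c l)]
      congr 1
      funext x
      rw [← mul_sub, ← Complex.ofReal_sub, ← hsub]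
    rw [h1, h2]
    ring
  refine ⟨_, _, fun B => ⟨⟨tr_memP hr1 hv1 (fun s => le_max_right _ _) (fun x => le_max_right _ _),
    tr_aemeasurable hr1c hn1⟩, ⟨tr_memP hr2 hv2 (fun s => le_max_right _ _)
    (fun x => le_max_right _ _), tr_aemeasurable hr2c hn2⟩⟩, hfd, ?_⟩
  -- the total masses
  set M₁ : ℝ := (∫ s, max (w s).re 0 ∂ν) + ∫ x, max (p x).re 0 ∂μ with hM₁
  set M₂ : ℝ := (∫ s, max (-(w s).re) 0 ∂ν) + ∫ x, max (-(p x).re) 0 ∂μ with hM₂
  have h1 : tr ν (fun s => ((max (w s).re 0 : ℝ) : ℂ)) μ (fun x => ((max (p x).re 0 : ℝ) : ℂ)) 0 =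
      (M₁ : ℂ) := by
    rw [tr_zero, integral_complex_ofReal, integral_complex_ofReal, ← Complex.ofReal_add]
  have h2 : tr ν (fun s => ((max (-(w s).re) 0 : ℝ) : ℂ)) μ
      (fun x => ((max (-(p x).re) 0 : ℝ) : ℂ)) 0 = (M₂ : ℂ) := by
    rw [tr_zero, integral_complex_ofReal, integral_complex_ofReal, ← Complex.ofReal_add]
  rw [h1, h2, ← Complex.ofReal_add]
  congr 1
  refine le_antisymm ?_ ?_
  · have h3 : M₁ + M₂ = (∫ s, |(w s).re| ∂ν) + ∫ x, |(p x).re| ∂μ := by
      have h4 : ∫ s, |(w s).re| ∂ν = (∫ s, max (w s).re 0 ∂ν) + ∫ s, max (-(w s).re) 0 ∂ν := by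
        rw [← integral_add hr1 hr2]
        congr 1
        funext s
        exact (hadd _).symm
      have h5 : ∫ x, |(p x).re| ∂μ = (∫ x, max (p x).re 0 ∂μ) + ∫ x, max (-(p x).re) 0 ∂μ := by
        rw [← integral_add hv1 hv2]
        congr 1
        funext x
        exact (hadd _).symm
      rw [h4, h5, hM₁, hM₂]
      ring
    rw [h3]
    refine (add_le_add ?_ ?_).trans hle
    · exact integral_mono hw.re.abs hw.norm fun s => Complex.abs_re_le_norm _
    · exact integral_mono hpi.re.abs hpi.norm fun x => Complex.abs_re_le_norm _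
  · have h6 : ∀ (r : ℝ → ℝ), (∀ s, 0 ≤ r s) → ∫ s, ‖((r s : ℝ) : ℂ)‖ ∂ν = ∫ s, r s ∂ν := by
      intro r hr
      congr 1
      funext s
      rw [Complex.norm_real, Real.norm_of_nonneg (hr s)]
    have h7 : ∀ (r : Bohr → ℝ), (∀ s, 0 ≤ r s) → ∫ s, ‖((r s : ℝ) : ℂ)‖ ∂μ = ∫ s, r s ∂μ := by
      intro r hr
      congr 1
      funext s
      rw [Complex.norm_real, Real.norm_of_nonneg (hr s)]
    have h8 : ∀ c : Dom A →₀ ℂ, ‖pairing f c‖ ≤ (M₁ + M₂) * ⨆ t : ℝ, ‖apPoly c t‖ := by
      intro c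
      have h9 := pairing_tr_le (B := A) hr1c hv1c c
      have h10 := pairing_tr_le (B := A) hr2c hv2c c
      rw [h6 _ (fun s => le_max_right _ _), h7 _ (fun s => le_max_right _ _)] at h9 h10
      have h11 : pairing f c = pairing (fun l : Dom A => tr ν (fun s => ((max (w s).re 0 : ℝ) : ℂ)) μ
          (fun x => ((max (p x).re 0 : ℝ) : ℂ)) l) c -
          pairing (fun l : Dom A => tr ν (fun s => ((max (-(w s).re) 0 : ℝ) : ℂ)) μ
            (fun x => ((max (-(p x).re) 0 : ℝ) : ℂ)) l) c := by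
        unfold pairing Finsupp.sum
        rw [← Finset.sum_sub_distrib]
        refine Finset.sum_congr rfl fun l _ => ?_
        beta_reduce
        rw [hfd l]
        ring
      rw [h11, add_mul]
      exact (norm_sub_le _ _).trans (add_le_add h9 h10)
    refine normR_le ?_ h8
    have h12 : 0 ≤ M₁ := add_nonneg (integral_nonneg fun s => le_max_right _ _)
      (integral_nonneg fun s => le_max_right _ _)
    have h13 : 0 ≤ M₂ := add_nonneg (integral_nonneg fun s => le_max_right _ _)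
      (integral_nonneg fun s => le_max_right _ _)
    exact add_nonneg h12 h13

end Pool.Agent.Y99.JD
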