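import Mathlib
import Pool.Agent.Y99.JD.Ext

/-!
# Structure of the measurable elements of `R_A`
-/

set_option autoImplicit false
set_option linter.unusedSectionVars false

open MeasureTheory Filter Topology Set
open scoped InnerProductSpace
open Pool.Agent.H731R2

namespace Pool.Agent.Y99.JD

variable {A B : EReal}

theorem dom_mono (h : A ≤ B) {x : ℝ} (hx : x ∈ Dom A) : x ∈ Dom B :=
  ⟨(EReal.neg_le_neg_iff.2 h).trans_lt hx.1, hx.2.trans_le h⟩

/-- The inclusion of `(-A, A)` in `(-B, B)`. -/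
def inclAB (h : A ≤ B) (l : Dom A) : Dom B := ⟨l, dom_mono h l.2⟩

/-- Restriction to a smaller interval does not increase the norm. -/
theorem normR_mono (h : A ≤ B) {F : ℝ → ℂ} (hF : MemR (fun l : Dom B => F l)) :
    normR (fun l : Dom A => F l) ≤ normR (fun l : Dom B => F l) := by
  refine normR_le (normR_nonneg _) fun c => ?_
  have h1 := normR_spec hF (c.mapDomain (inclAB h))
  have h2 : pairing (fun l : Dom B => F l) (c.mapDomain (inclAB h)) =
      pairing (fun l : Dom A => F l) c := by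
    unfold pairing
    rw [Finsupp.sum_mapDomain_index (by simp) (by intros; ring)]
    rfl
  have h3 : ∀ t, apPoly (c.mapDomain (inclAB h)) t = apPoly c t := by
    intro t
    unfold apPoly
    rw [Finsupp.sum_mapDomain_index (by simp) (by intros; ring)]
    rfl
  rw [h2] at h1
  simp_rw [h3] at h1
  exact h1

theorem memR_line {ν : Measure ℝ} {w : ℝ → ℂ} (hw : Integrable w ν) :
    MemR (fun l : Dom B => ∫ s, ex l s * w s ∂ν) := ⟨_, pairing_ex_le hw⟩

theorem memR_bohr {μ : Measure Bohr} {p : Bohr → ℂ} (hp : Integrable p μ) :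
    MemR (fun l : Dom B => ∫ x, chr l x * p x ∂μ) := ⟨_, pairing_chr_le hp⟩

/-- Every measurable element of `R_A` is the restriction of the sum of a continuous and of an almost
everywhere vanishing function on the line, the norm being additive and preserved on every larger
interval. -/
theorem structure_thm {f : Dom A → ℂ} (hf : MemR f) (hm : AEMeasurable f (leb A)) :
    ∃ Fc Fm : ℝ → ℂ, Continuous Fc ∧ (∀ᵐ x : ℝ, Fm x = 0) ∧ (∀ l : Dom A, f l = Fc l + Fm l) ∧
      ∀ B : EReal, A ≤ B → MemR (fun l : Dom B => Fc l) ∧ MemR (fun l : Dom B => Fm l) ∧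
        normR (fun l : Dom B => Fc l) + normR (fun l : Dom B => Fm l) = normR f ∧
        normR (fun l : Dom B => Fc l + Fm l) = normR f := by
  obtain ⟨ν, w, μ, hμ, p, hw, hp, hle, hrep⟩ := core (normR_nonneg _) (normR_spec hf) hm
  have hpi : Integrable (p : Bohr → ℂ) μ := (Lp.memLp p).integrable (by norm_num)
  refine ⟨fun a => ∫ s, ex a s * w s ∂ν, fun a => ∫ x, chr a x * p x ∂μ,
    continuous_integral_ex hw, null_transform hp, hrep, fun B hB => ?_⟩
  have h1 : MemR (fun l : Dom B => ∫ s, ex l s * w s ∂ν) := memR_line hw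
  have h2 : MemR (fun l : Dom B => ∫ x, chr l x * p x ∂μ) := memR_bohr hpi
  have h3 : normR (fun l : Dom B => ∫ s, ex l s * w s ∂ν) ≤ ∫ s, ‖w s‖ ∂ν :=
    normR_le (integral_nonneg fun _ => norm_nonneg _) (pairing_ex_le hw)
  have h4 : normR (fun l : Dom B => ∫ x, chr l x * p x ∂μ) ≤ ∫ x, ‖p x‖ ∂μ :=
    normR_le (integral_nonneg fun _ => norm_nonneg _) (pairing_chr_le hpi)
  have h5 : normR (fun l : Dom B => (∫ s, ex l s * w s ∂ν) + ∫ x, chr l x * p x ∂μ) ≤
      normR (fun l : Dom B => ∫ s, ex l s * w s ∂ν) +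
        normR (fun l : Dom B => ∫ x, chr l x * p x ∂μ) := normR_add_le h1 h2
  have h6 : normR f ≤ normR (fun l : Dom B => (∫ s, ex l s * w s ∂ν) + ∫ x, chr l x * p x ∂μ) := by
    have h7 := normR_mono hB
      (F := fun a => (∫ s, ex a s * w s ∂ν) + ∫ x, chr a x * p x ∂μ) (h1.add h2)
    have h8 : (fun l : Dom A => (∫ s, ex l s * w s ∂ν) + ∫ x, chr l x * p x ∂μ) = f := by
      funext l
      exact (hrep l).symm
    rwa [h8] at h7
  exact ⟨h1, h2, by linarith, by linarith⟩

end Pool.Agent.Y99.JD
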