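import Mathlib
import Pool.Agent.Y99.JD.Ext

/-!
# Norm preserving measurable extensions of Hermitian and of non-negative elements
-/

set_option autoImplicit false
set_option linter.unusedSectionVars false

open MeasureTheory Filter Topology Set
open scoped InnerProductSpace
open Pool.Agent.H731R2

namespace Pool.Agent.Y99.JD

variable {A B : EReal}

/-- Reflection of `(-A, A)`. -/
def refl (l : Dom A) : Dom A := ⟨-(l : ℝ), neg_mem_dom l.2⟩

/-- The coefficients of the complex conjugate polynomial. -/
noncomputable def cj (c : Dom A →₀ ℂ) : Dom A →₀ ℂ :=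
  (c.mapRange (starRingEnd ℂ) (map_zero _)).mapDomain refl

theorem apPoly_cj (c : Dom A →₀ ℂ) (t : ℝ) : apPoly (cj c) t = (starRingEnd ℂ) (apPoly c t) := by
  unfold apPoly cj
  rw [Finsupp.sum_mapDomain_index (by simp) (by intros; ring),
    Finsupp.sum_mapRange_index (by simp)]
  unfold Finsupp.sum
  rw [map_sum]
  refine Finset.sum_congr rfl fun l _ => ?_
  have h1 : (starRingEnd ℂ) (Complex.I * (((l : ℝ) : ℂ) * (t : ℂ))) =
      Complex.I * ((((refl l : Dom A) : ℝ) : ℂ) * (t : ℂ)) := by
    have h2 : ((refl l : Dom A) : ℝ) = -(l : ℝ) := rfl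
    rw [h2]
    simp only [map_mul, Complex.conj_I, Complex.conj_ofReal]
    push_cast
    ring
  rw [map_mul, ← Complex.exp_conj, h1]

theorem pairing_cj {f : Dom A → ℂ} (hH : Hermitian f) (c : Dom A →₀ ℂ) :
    pairing f (cj c) = (starRingEnd ℂ) (pairing f c) := by
  unfold pairing cj
  rw [Finsupp.sum_mapDomain_index (by simp) (by intros; ring),
    Finsupp.sum_mapRange_index (by simp)]
  unfold Finsupp.sum
  rw [map_sum]
  refine Finset.sum_congr rfl fun l _ => ?_
  rw [map_mul, ← hH l]
  rfl

theorem pairing_single (f : Dom A → ℂ) (l : Dom A) (a : ℂ) :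
    pairing f (Finsupp.single l a) = a * f l := by
  unfold pairing
  exact Finsupp.sum_single_index (by simp)

theorem apPoly_single (l : Dom A) (a : ℂ) (t : ℝ) :
    apPoly (Finsupp.single l a) t = a * Complex.exp (Complex.I * (((l : ℝ) : ℂ) * (t : ℂ))) := by
  unfold apPoly
  exact Finsupp.sum_single_index (by simp)

theorem apPoly_single_zero (h0 : (0 : ℝ) ∈ Dom A) (a : ℂ) (t : ℝ) :
    apPoly (Finsupp.single (⟨0, h0⟩ : Dom A) a) t = a := by
  rw [apPoly_single]
  simp

/-- Non-negative elements are real at the origin. -/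
theorem memP_zero {f : Dom A → ℂ} (hf : MemP f) (h0 : (0 : ℝ) ∈ Dom A) :
    (f ⟨0, h0⟩).im = 0 ∧ 0 ≤ (f ⟨0, h0⟩).re := by
  have h1 := hf.2 (Finsupp.single ⟨0, h0⟩ 1) (fun t => by
    rw [apPoly_single_zero]
    simp)
  rwa [pairing_single, one_mul] at h1

/-- Non-negative elements are Hermitian. -/
theorem memP_hermitian {f : Dom A → ℂ} (hf : MemP f) (h0 : (0 : ℝ) ∈ Dom A) : Hermitian f := by
  intro l
  have key : ∀ a : ℂ, ‖a‖ = 1 →
      (a * f l + (starRingEnd ℂ) a * f ⟨-(l : ℝ), neg_mem_dom l.2⟩).im = 0 := by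
    intro a ha
    have h1 := hf.2 (Finsupp.single ⟨0, h0⟩ 2 + (Finsupp.single l a +
      Finsupp.single ⟨-(l : ℝ), neg_mem_dom l.2⟩ ((starRingEnd ℂ) a))) (fun t => by
        set z : ℂ := a * Complex.exp (Complex.I * (((l : ℝ) : ℂ) * (t : ℂ))) with hz
        have h2 : (starRingEnd ℂ) a *
            Complex.exp (Complex.I * (((-(l : ℝ) : ℝ) : ℂ) * (t : ℂ))) = (starRingEnd ℂ) z := by
          rw [hz, map_mul, ← Complex.exp_conj]
          congr 2
          simp only [map_mul, Complex.conj_I, Complex.conj_ofReal]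
          push_cast
          ring
        have h3 : ‖z‖ = 1 := by rw [hz, norm_mul, norm_exp_I_mul, ha, one_mul]
        have h4 : |z.re| ≤ 1 := by rw [← h3]; exact Complex.abs_re_le_norm z
        rw [apPoly_add, apPoly_add, apPoly_single_zero, apPoly_single, apPoly_single]
        simp only
        rw [h2, Complex.add_conj]
        have h5 := (abs_le.1 h4).1
        constructor
        · simp
        · simp only [Complex.add_re, Complex.re_ofNat, Complex.ofReal_re]
          linarith)
    have h6 := h1.1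
    rw [pairing_add, pairing_add, pairing_single, pairing_single, pairing_single,
      Complex.add_im] at h6
    have h7 := (memP_zero hf h0).1
    have h8 : ((2 : ℂ) * f ⟨0, h0⟩).im = 0 := by
      rw [Complex.mul_im, h7]
      simp
    linarith
  have h1 := key 1 norm_one
  have h2 := key Complex.I Complex.norm_I
  rw [map_one, one_mul, one_mul, Complex.add_im] at h1
  rw [Complex.conj_I] at h2
  simp only [Complex.add_im, Complex.mul_im, Complex.I_re, Complex.I_im,
    Complex.neg_im, zero_mul, one_mul, zero_add, neg_mul] at h2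
  apply Complex.ext
  · rw [Complex.conj_re]
    linarith
  · rw [Complex.conj_im]
    linarith

/-- A non-negative element has its value at the origin as a bound. -/
theorem memP_bound {f : Dom A → ℂ} (hf : MemP f) (h0 : (0 : ℝ) ∈ Dom A) (c : Dom A →₀ ℂ) :
    ‖pairing f c‖ ≤ (f ⟨0, h0⟩).re * ⨆ t : ℝ, ‖apPoly c t‖ := by
  have hH := memP_hermitian hf h0
  set S : ℝ := ⨆ t : ℝ, ‖apPoly c t‖ with hS
  set a : ℂ := csg (pairing f c) with ha
  have ha1 : ‖a‖ ≤ 1 := norm_csg_le _
  have hz : a * pairing f c = (‖pairing f c‖ : ℂ) := csg_mul _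
  have h1 := hf.2 (Finsupp.single ⟨0, h0⟩ (S : ℂ) + (-1 / 2 : ℂ) • (a • c + cj (a • c)))
    (fun t => by
      rw [apPoly_add, apPoly_smul, apPoly_add, apPoly_cj, apPoly_single_zero, apPoly_smul,
        Complex.add_conj]
      have h2 : ‖a * apPoly c t‖ ≤ S := by
        rw [norm_mul]
        exact (mul_le_of_le_one_left (norm_nonneg _) ha1).trans (le_sup c t)
      have h3 : (a * apPoly c t).re ≤ S := (Complex.re_le_norm _).trans h2
      have h4 : (S : ℂ) + (-1 / 2 : ℂ) * ((2 * (a * apPoly c t).re : ℝ) : ℂ) =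
          ((S - (a * apPoly c t).re : ℝ) : ℂ) := by
        push_cast
        ring
      rw [h4, Complex.ofReal_im, Complex.ofReal_re]
      exact ⟨rfl, by linarith⟩)
  have h5 := h1.2
  rw [pairing_add, pairing_smul, pairing_add, pairing_cj hH, pairing_single, pairing_smul, hz,
    Complex.conj_ofReal] at h5
  have h6 : ((S : ℂ) * f ⟨0, h0⟩ + (-1 / 2 : ℂ) * ((‖pairing f c‖ : ℂ) + (‖pairing f c‖ : ℂ))) =
      (S : ℂ) * f ⟨0, h0⟩ - ((‖pairing f c‖ : ℝ) : ℂ) := by ring
  rw [h6, Complex.sub_re, Complex.ofReal_re, Complex.re_ofReal_mul] at h5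
  linarith

/-- The norm of a non-negative element is its value at the origin. -/
theorem memP_norm {f : Dom A → ℂ} (hf : MemP f) (h0 : (0 : ℝ) ∈ Dom A) :
    f ⟨0, h0⟩ = (normR f : ℂ) := by
  have hz := memP_zero hf h0
  have h1 : normR f ≤ (f ⟨0, h0⟩).re := normR_le hz.2 (memP_bound hf h0)
  have h2 : (f ⟨0, h0⟩).re ≤ normR f := by
    have h3 := normR_spec hf.1 (Finsupp.single ⟨0, h0⟩ 1)
    rw [pairing_single, one_mul] at h3
    simp_rw [apPoly_single_zero] at h3
    rw [norm_one, ciSup_const, mul_one] at h3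
    exact (Complex.re_le_norm _).trans h3
  apply Complex.ext
  · rw [Complex.ofReal_re]
    exact le_antisymm h2 h1
  · rw [Complex.ofReal_im]
    exact hz.1

/-- Norm preserving measurable extension to the whole line, respecting Hermitian symmetry and
non-negativity. -/
theorem exists_extension_full (hA : 0 < A) {f : Dom A → ℂ} (hf : MemR f)
    (hm : AEMeasurable f (leb A)) :
    ∃ F : ℝ → ℂ, MemR (fun l : Dom (⊤ : EReal) => F l) ∧
      AEMeasurable (fun l : Dom (⊤ : EReal) => F l) (leb ⊤) ∧ (∀ l : Dom A, F l = f l) ∧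
      normR (fun l : Dom (⊤ : EReal) => F l) = normR f ∧
      (Hermitian f → Hermitian (fun l : Dom (⊤ : EReal) => F l)) ∧
      (MemP f → MemP (fun l : Dom (⊤ : EReal) => F l)) := by
  have h0 := zero_mem_dom hA
  by_cases hH : Hermitian f
  · obtain ⟨F₁, F₂, hF, hd, h00⟩ := jordan_norm hf hm hH
    obtain ⟨⟨hP1, hm1⟩, ⟨hP2, hm2⟩⟩ := hF ⊤
    have hR : MemR (fun l : Dom (⊤ : EReal) => F₁ l - F₂ l) := hP1.1.sub hP2.1
    have hfe : (fun l : Dom A => F₁ l - F₂ l) = f := by
      funext l
      exact (hd l).symm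
    have htop := mem_dom_top 0
    refine ⟨fun x => F₁ x - F₂ x, hR, hm1.sub hm2, fun l => (hd l).symm, ?_, ?_, ?_⟩
    · refine le_antisymm ?_ ?_
      · have e1 := memP_norm hP1 htop
        have e2 := memP_norm hP2 htop
        have e3 : normR (fun l : Dom (⊤ : EReal) => F₁ l) + normR (fun l : Dom (⊤ : EReal) => F₂ l) =
            normR f := by
          have e4 : ((normR (fun l : Dom (⊤ : EReal) => F₁ l) +
              normR (fun l : Dom (⊤ : EReal) => F₂ l) : ℝ) : ℂ) = (normR f : ℂ) := by
            rw [← h00]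
            push_cast
            rw [← e1, ← e2]
          exact_mod_cast e4
        rw [← e3]
        refine normR_le (add_nonneg (normR_nonneg _) (normR_nonneg _)) fun c => ?_
        have e5 : pairing (fun l : Dom (⊤ : EReal) => F₁ l - F₂ l) c =
            pairing (fun l : Dom (⊤ : EReal) => F₁ l) c -
              pairing (fun l : Dom (⊤ : EReal) => F₂ l) c := by
          unfold pairing Finsupp.sum
          rw [← Finset.sum_sub_distrib]
          exact Finset.sum_congr rfl fun _ _ => by ring
        rw [e5, add_mul]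
        exact (norm_sub_le _ _).trans (add_le_add (normR_spec hP1.1 c) (normR_spec hP2.1 c))
      · have h1 := normR_restrict_le (A := A) (F := fun x => F₁ x - F₂ x) hR
        rwa [hfe] at h1
    · intro _ l
      have e1 := memP_hermitian hP1 htop l
      have e2 := memP_hermitian hP2 htop l
      simp only at e1 e2 ⊢
      rw [e1, e2, map_sub]
    · intro hPf
      have e1 := memP_norm hPf h0
      have e2 := hd ⟨0, h0⟩
      have e3 : F₂ 0 = 0 := by
        rw [e1] at e2
        simp only at e2
        rw [← h00] at e2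
        have e4 : (2 : ℂ) * F₂ 0 = 0 := by linear_combination e2
        exact (mul_eq_zero.1 e4).resolve_left two_ne_zero
      have e5 : ∀ x : ℝ, F₂ x = 0 := by
        intro x
        have e6 := memP_bound hP2 htop (Finsupp.single ⟨x, mem_dom_top x⟩ 1)
        rw [pairing_single, one_mul] at e6
        simp only at e6
        rw [e3, Complex.zero_re, zero_mul] at e6
        exact norm_le_zero_iff.1 e6
      have e7 : (fun l : Dom (⊤ : EReal) => (fun x => F₁ x - F₂ x) (l : ℝ)) =
          fun l : Dom (⊤ : EReal) => F₁ l := by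
        funext l
        simp only
        rw [e5, sub_zero]
      rw [e7]
      exact hP1
  · obtain ⟨F, h1, h2, h3, h4⟩ := exists_extension hf hm
    exact ⟨F, h1, h2, h3, h4, fun h => absurd h hH, fun h => absurd (memP_hermitian h h0) hH⟩

end Pool.Agent.Y99.JD
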